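import Pool.Agent.Y981.QB.Stm

set_option autoImplicit false

/-!
Project QB (helper981): if there are few light pieces at all scales, then the path is long.
-/

namespace Pool.Agent.Y858.QB

open H978R2.Hex Pool.Agent.Y981.QB

lemma dst_self (u : V) : dst u u = 0 := by
  unfold dst
  rw [sub_self, norm_zero]

lemma dst_comm (u v : V) : dst u v = dst v u := by
  unfold dst
  exact norm_sub_rev _ _

lemma dst_tri (u v w : V) : dst u w ≤ dst u v + dst v w := by
  unfold dst
  have : pos u - pos w = (pos u - pos v) + (pos v - pos w) := by ring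
  rw [this]
  exact norm_add_le _ _

lemma dst_sq (u v : V) : dst u v ^ 2 =
    3 / 4 * ((u.1 : ℝ) - v.1) ^ 2 + ((ht u : ℝ) - ht v) ^ 2 / 4 := by
  unfold dst
  rw [Complex.sq_norm, Complex.normSq_apply]
  simp only [pos, Complex.sub_re, Complex.sub_im]
  have h3 : Real.sqrt 3 * Real.sqrt 3 = 3 := Real.mul_self_sqrt (by norm_num)
  linear_combination (1 / 4 * ((u.1 : ℝ) - v.1) ^ 2) * h3

lemma adj_dst {p q : V} (h : Adj p q) : dst p q ≤ 1 := by
  have key : dst p q ^ 2 ≤ 1 ^ 2 := by
    rw [dst_sq]
    rcases h with h | h | ⟨h, he⟩ | ⟨h, he⟩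
    · have h1 : q.1 = p.1 + 1 := by
        have := congrArg Prod.fst h
        simp only [Prod.fst_sub] at this
        omega
      have h2 : q.2 = p.2 := by
        have := congrArg Prod.snd h
        simp only [Prod.snd_sub] at this
        omega
      have h3 : ht p - ht q = 1 ∨ ht p - ht q = -1 := by
        unfold ht
        rw [h1, h2]
        omega
      have h4 : (q.1 : ℝ) = p.1 + 1 := by exact_mod_cast h1
      have h5 : ((ht p : ℝ) - ht q) ^ 2 = 1 := by
        rcases h3 with h3 | h3
        · have : (ht p : ℝ) - ht q = 1 := by exact_mod_cast h3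
          rw [this]; norm_num
        · have : (ht p : ℝ) - ht q = -1 := by exact_mod_cast h3
          rw [this]; norm_num
      rw [h5, h4]
      ring_nf
      norm_num
    · have h1 : q.1 = p.1 - 1 := by
        have := congrArg Prod.fst h
        simp only [Prod.fst_sub] at this
        omega
      have h2 : q.2 = p.2 := by
        have := congrArg Prod.snd h
        simp only [Prod.snd_sub] at this
        omega
      have h3 : ht p - ht q = 1 ∨ ht p - ht q = -1 := by
        unfold ht
        rw [h1, h2]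
        omega
      have h4 : (q.1 : ℝ) = p.1 - 1 := by exact_mod_cast h1
      have h5 : ((ht p : ℝ) - ht q) ^ 2 = 1 := by
        rcases h3 with h3 | h3
        · have : (ht p : ℝ) - ht q = 1 := by exact_mod_cast h3
          rw [this]; norm_num
        · have : (ht p : ℝ) - ht q = -1 := by exact_mod_cast h3
          rw [this]; norm_num
      rw [h5, h4]
      ring_nf
      norm_num
    · have h1 : q.1 = p.1 := by
        have := congrArg Prod.fst h
        simp only [Prod.fst_sub] at this
        omega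
      have h2 : q.2 = p.2 + 1 := by
        have := congrArg Prod.snd h
        simp only [Prod.snd_sub] at this
        omega
      have h3 : ht p - ht q = -2 := by
        rw [Int.even_iff] at he
        unfold ht
        rw [h1, h2]
        omega
      have h4 : (q.1 : ℝ) = p.1 := by exact_mod_cast h1
      have h5 : (ht p : ℝ) - ht q = -2 := by exact_mod_cast h3
      rw [h5, h4]
      norm_num
    · have h1 : q.1 = p.1 := by
        have := congrArg Prod.fst h
        simp only [Prod.fst_sub] at this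
        omega
      have h2 : q.2 = p.2 - 1 := by
        have := congrArg Prod.snd h
        simp only [Prod.snd_sub] at this
        omega
      have h3 : ht p - ht q = 2 := by
        rw [Int.even_iff, h1, h2] at he
        unfold ht
        rw [h1, h2]
        omega
      have h4 : (q.1 : ℝ) = p.1 := by exact_mod_cast h1
      have h5 : (ht p : ℝ) - ht q = 2 := by exact_mod_cast h3
      rw [h5, h4]
      norm_num
  exact (abs_le_of_sq_le_sq' key (by norm_num)).2

/-! ### Greedy times -/

lemma greedy (δ : ℕ → V) (m : ℕ) (W : ℝ) (hW : 0 < W) (d : ℕ) : ∀ x ≤ m, m - x ≤ d →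
    ∃ (k : ℕ) (t : ℕ → ℕ), t 0 = x ∧ (∀ j < k, t j < t (j + 1)) ∧ t k ≤ m ∧
      (∀ j < k, ∀ i, t j ≤ i → i < t (j + 1) → dst (δ i) (δ (t j)) < W) ∧
      (∀ j < k, W ≤ dst (δ (t (j + 1))) (δ (t j))) ∧
      (∀ i, t k ≤ i → i ≤ m → dst (δ i) (δ (t k)) < W) := by
  classical
  induction d with
  | zero =>
    intro x hx hd
    refine ⟨0, fun _ => x, rfl, fun j hj => absurd hj (Nat.not_lt_zero j), hx,
      fun j hj => absurd hj (Nat.not_lt_zero j), fun j hj => absurd hj (Nat.not_lt_zero j), ?_⟩
    intro i h1 h2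
    have : i = x := by
      change x ≤ i at h1
      omega
    rw [this, dst_self]
    exact hW
  | succ d ih =>
    intro x hx hd
    by_cases hex : ∃ i, x ≤ i ∧ i ≤ m ∧ W ≤ dst (δ i) (δ x)
    · obtain ⟨i0, hi0⟩ : ∃ i0, i0 = Nat.find hex := ⟨_, rfl⟩
      have hs := Nat.find_spec hex
      rw [← hi0] at hs
      have hmin : ∀ i, x ≤ i → i < i0 → dst (δ i) (δ x) < W := by
        intro i h1 h2
        by_contra hcon
        rw [not_lt] at hcon
        have := Nat.find_min' hex ⟨h1, by omega, hcon⟩
        omega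
      have hne : i0 ≠ x := by
        intro h
        rw [h, dst_self] at hs
        linarith [hs.2.2]
      obtain ⟨k, t, h1, h2, h3, h4, h5, h6⟩ := ih i0 hs.2.1 (by omega)
      refine ⟨k + 1, fun j => if j = 0 then x else t (j - 1), by simp, ?_, ?_, ?_, ?_, ?_⟩
      · intro j hj
        rcases Nat.eq_zero_or_pos j with h0 | h0
        · rw [h0]
          simp only [if_true, Nat.zero_add, one_ne_zero, if_false, Nat.sub_self, h1]
          omega
        · have e1 : j ≠ 0 := by omega
          have e2 : j + 1 - 1 = (j - 1) + 1 := by omega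
          simp only [e1, if_false, Nat.succ_ne_zero, e2]
          exact h2 (j - 1) (by omega)
      · simpa using h3
      · intro j hj i hi1 hi2
        rcases Nat.eq_zero_or_pos j with h0 | h0
        · rw [h0] at hi1 hi2 ⊢
          simp only [if_true, Nat.zero_add, one_ne_zero, if_false, Nat.sub_self, h1] at hi1 hi2 ⊢
          exact hmin i hi1 hi2
        · have e1 : j ≠ 0 := by omega
          have e2 : j + 1 - 1 = (j - 1) + 1 := by omega
          simp only [e1, if_false, Nat.succ_ne_zero, e2] at hi1 hi2 ⊢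
          exact h4 (j - 1) (by omega) i hi1 hi2
      · intro j hj
        rcases Nat.eq_zero_or_pos j with h0 | h0
        · rw [h0]
          simp only [if_true, Nat.zero_add, one_ne_zero, if_false, Nat.sub_self, h1]
          exact hs.2.2
        · have e1 : j ≠ 0 := by omega
          have e2 : j + 1 - 1 = (j - 1) + 1 := by omega
          simp only [e1, if_false, Nat.succ_ne_zero, e2]
          exact h5 (j - 1) (by omega)
      · simpa using h6
    · push Not at hex
      exact ⟨0, fun _ => x, rfl, fun j hj => absurd hj (Nat.not_lt_zero j), hx,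
        fun j hj => absurd hj (Nat.not_lt_zero j), fun j hj => absurd hj (Nat.not_lt_zero j),
        fun i h1 h2 => hex i h1 h2⟩

lemma greedy_le {δ : ℕ → V} {m k : ℕ} {t : ℕ → ℕ} {W : ℝ}
    (hstep : ∀ i < m, dst (δ i) (δ (i + 1)) ≤ 1)
    (h0 : t 0 = 0) (h1 : ∀ j < k, t j < t (j + 1)) (h2 : t k ≤ m)
    (h3 : ∀ j < k, ∀ i, t j ≤ i → i < t (j + 1) → dst (δ i) (δ (t j)) < W)
    (h4 : ∀ i, t k ≤ i → i ≤ m → dst (δ i) (δ (t k)) < W) :
    dst (δ 0) (δ m) ≤ k * (W + 1) + W := by
  have hmono : ∀ d j, j + d ≤ k → t j ≤ t (j + d) := by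
    intro d
    induction d with
    | zero => intro j _; exact le_rfl
    | succ d ih =>
      intro j hj
      exact (ih j (by omega)).trans (h1 (j + d) (by omega)).le
  have hj : ∀ j ≤ k, dst (δ 0) (δ (t j)) ≤ j * (W + 1) := by
    intro j
    induction j with
    | zero => intro _; rw [h0, dst_self]; simp
    | succ j ih =>
      intro hj
      have a1 := ih (by omega)
      have a2 := h1 j (by omega)
      have a3 : t (j + 1) ≤ m := by
        have := hmono (k - (j + 1)) (j + 1) (by omega)
        rw [show j + 1 + (k - (j + 1)) = k by omega] at this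
        omega
      have a4 := h3 j (by omega) (t (j + 1) - 1) (by omega) (by omega)
      have a5 := hstep (t (j + 1) - 1) (by omega)
      rw [show t (j + 1) - 1 + 1 = t (j + 1) by omega] at a5
      have a6 := dst_tri (δ 0) (δ (t j)) (δ (t (j + 1)))
      have a7 := dst_tri (δ (t j)) (δ (t (j + 1) - 1)) (δ (t (j + 1)))
      rw [dst_comm (δ (t j)) (δ (t (j + 1) - 1))] at a7
      push_cast
      linarith
  have b1 := hj k le_rfl
  have b2 := h4 m h2 le_rfl
  have b3 := dst_tri (δ 0) (δ (t k)) (δ m)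
  rw [dst_comm (δ (t k))] at b3
  linarith

/-! ### Families of consecutive intervals -/

/-- `M` consecutive intervals in `[x, y]` with the property `P` -/
inductive Fam (P : ℕ → ℕ → Prop) : ℕ → ℕ → ℕ → Prop
  | nil {x y : ℕ} (h : x ≤ y) : Fam P 0 x y
  | cons {M x a b y : ℕ} (h1 : x ≤ a) (h2 : a ≤ b) (h3 : P a b) (h4 : Fam P M b y) :
    Fam P (M + 1) x y

lemma Fam.le {P : ℕ → ℕ → Prop} {M x y : ℕ} (h : Fam P M x y) : x ≤ y := by
  induction h with
  | nil h => exact h
  | cons h1 h2 _ _ ih => omega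

lemma Fam.left {P : ℕ → ℕ → Prop} {M x x' y : ℕ} (h : Fam P M x y) (hx : x' ≤ x) :
    Fam P M x' y := by
  cases h with
  | nil h => exact Fam.nil (hx.trans h)
  | cons h1 h2 h3 h4 => exact Fam.cons (hx.trans h1) h2 h3 h4

lemma Fam.right {P : ℕ → ℕ → Prop} {M x y y' : ℕ} (h : Fam P M x y) (hy : y ≤ y') :
    Fam P M x y' := by
  induction h with
  | nil h => exact Fam.nil (h.trans hy)
  | cons h1 h2 h3 _ ih => exact Fam.cons h1 h2 h3 (ih hy)

lemma Fam.append {P : ℕ → ℕ → Prop} {M M' x y z : ℕ} (h : Fam P M x y) (h' : Fam P M' y z) :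
    Fam P (M' + M) x z := by
  induction h with
  | nil h => exact h'.left h
  | cons h1 h2 h3 _ ih => exact Fam.cons h1 h2 h3 (ih h')

lemma Fam.single {P : ℕ → ℕ → Prop} {a b : ℕ} (h : a ≤ b) (hP : P a b) : Fam P 1 a b :=
  Fam.cons le_rfl h hP (Fam.nil le_rfl)

lemma Fam.funs {P : ℕ → ℕ → Prop} {M x y : ℕ} (h : Fam P M x y) :
    ∃ a b : ℕ → ℕ, (∀ j < M, x ≤ a j ∧ a j ≤ b j ∧ b j ≤ y ∧ P (a j) (b j)) ∧
      ∀ j, j + 1 < M → b j ≤ a (j + 1) := by
  induction h with
  | nil h =>
    exact ⟨fun _ => 0, fun _ => 0, fun j hj => absurd hj (Nat.not_lt_zero j),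
      fun j hj => absurd hj (Nat.not_lt_zero _)⟩
  | @cons M x a b y h1 h2 h3 h4 ih =>
    obtain ⟨f, g, hf, hg⟩ := ih
    have hby := h4.le
    refine ⟨fun j => if j = 0 then a else f (j - 1), fun j => if j = 0 then b else g (j - 1),
      ?_, ?_⟩
    · intro j hj
      rcases Nat.eq_zero_or_pos j with h0 | h0
      · rw [h0]
        simp only [if_true]
        exact ⟨h1, h2, hby, h3⟩
      · have e1 : j ≠ 0 := by omega
        simp only [e1, if_false]
        have := hf (j - 1) (by omega)
        exact ⟨by omega, this.2.1, this.2.2.1, this.2.2.2⟩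
    · intro j hj
      rcases Nat.eq_zero_or_pos j with h0 | h0
      · rw [h0]
        simp only [if_true, Nat.zero_add, one_ne_zero, if_false, Nat.sub_self]
        exact (hf 0 (by omega)).1
      · have e1 : j ≠ 0 := by omega
        have e2 : j + 1 - 1 = (j - 1) + 1 := by omega
        simp only [e1, if_false, Nat.succ_ne_zero, e2]
        exact hg (j - 1) (by omega)

lemma Fam.card_le {P : ℕ → ℕ → Prop} (hP : ∀ a b, P a b → a ≠ b) {M x y : ℕ}
    (h : Fam P M x y) : M + x ≤ y := by
  induction h with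
  | nil h => omega
  | cons h1 h2 h3 _ ih =>
    have := hP _ _ h3
    omega

/-- far points -/
def FP (γ : ℕ → V) (W : ℝ) (x y : ℕ) : Prop := W ≤ dst (γ x) (γ y)

/-- the greedy intervals as a family -/
lemma fam_greedy {γ : ℕ → V} {a b k : ℕ} {t : ℕ → ℕ} {W : ℝ} (hab : a ≤ b) (h0 : t 0 = 0)
    (h1 : ∀ j < k, t j < t (j + 1)) (h2 : t k ≤ b - a)
    (h5 : ∀ j < k, W ≤ dst (γ (a + t (j + 1))) (γ (a + t j))) : Fam (FP γ W) k a b := by
  have key : ∀ j ≤ k, Fam (FP γ W) j a (a + t j) := by
    intro j
    induction j with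
    | zero => intro _; rw [h0]; exact Fam.nil le_rfl
    | succ j ih =>
      intro hj
      have h6 := h1 j (by omega)
      have h7 : Fam (FP γ W) 1 (a + t j) (a + t (j + 1)) :=
        Fam.single (by omega) (by
          unfold FP
          rw [dst_comm]
          exact h5 j (by omega))
      have := (ih (by omega)).append h7
      rwa [Nat.add_comm 1 j] at this
  exact (key k le_rfl).right (by omega)

/-- refinement of a family -/
lemma refine_fam {γ : ℕ → V} {η : ℝ} {W lam : ℕ} (hW : 1 ≤ W) {M x y : ℕ}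
    (h : Fam (FP γ ((lam : ℝ) * W)) M x y) :
    ∃ M' K' : ℕ, Fam (FP γ W) M' x y ∧
      Fam (fun a b => Light η W lam (b - a) (fun i => γ (a + i))) K' x y ∧
      ((M : ℝ) - K') * ((1 + η) * lam) ≤ M' := by
  induction h with
  | nil h => exact ⟨0, 0, Fam.nil h, Fam.nil h, by simp⟩
  | @cons M x a b y h1 h2 h3 h4 ih =>
    obtain ⟨M1, K1, f1, f2, hle⟩ := ih
    have hW0 : (0 : ℝ) < W := by
      have : 0 < W := hW
      exact_mod_cast this
    obtain ⟨k, t, g0, g1, g2, g3, g4, g5⟩ := greedy (fun i => γ (a + i)) (b - a) W hW0 (b - a) 0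
      (Nat.zero_le _) (by omega)
    by_cases hk : (k : ℝ) < (1 + η) * lam
    · refine ⟨M1, K1 + 1, f1.left (h1.trans h2), Fam.cons h1 h2 ?_ f2, ?_⟩
      · refine ⟨?_, k, t, hk, g0, g1, g2, g3, g5⟩
        have h6 : a + (b - a) = b := by omega
        simp only [Nat.add_zero, h6]
        exact h3
      · push_cast
        calc ((M : ℝ) + 1 - (K1 + 1)) * ((1 + η) * lam) = ((M : ℝ) - K1) * ((1 + η) * lam) := by
              ring
          _ ≤ M1 := hle
    · rw [not_lt] at hk
      refine ⟨M1 + k, K1, ?_, f2.left (h1.trans h2), ?_⟩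
      · exact ((fam_greedy h2 g0 g1 g2 g4).append f1).left h1
      · push_cast
        calc ((M : ℝ) + 1 - K1) * ((1 + η) * lam) =
            ((M : ℝ) - K1) * ((1 + η) * lam) + (1 + η) * lam := by ring
          _ ≤ M1 + k := add_le_add hle hk

/-- DET -/
theorem det : S_DET := by
  intro η w0 lam I K n a b γ hη hη1 hw0 hlam hK hadj hab hbn hDL hD
  have hstep : ∀ i < n, dst (γ i) (γ (i + 1)) ≤ 1 := fun i hi => adj_dst (hadj i hi)
  obtain ⟨D, hDd⟩ : ∃ D, D = dst (γ a) (γ b) := ⟨_, rfl⟩
  have hw0R : (1 : ℝ) ≤ w0 := by exact_mod_cast hw0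
  have hlamR : (1 : ℝ) ≤ lam := by exact_mod_cast hlam
  have hKR : (1 : ℝ) ≤ K := by exact_mod_cast hK
  rw [← hDd] at hD ⊢
  obtain ⟨w, hw⟩ : ∃ w : ℝ, w = w0 * (lam : ℝ) ^ I := ⟨_, rfl⟩
  have hw1 : 1 ≤ w := by
    rw [hw]
    exact one_le_mul_of_one_le_of_one_le hw0R (one_le_pow₀ hlamR)
  rw [← hw] at hD
  have hD16 : 16 * w ≤ D := by
    have h1 : 16 ≤ 16 / η * K := by
      have : 16 ≤ 16 / η := by rw [le_div_iff₀ hη]; linarith
      nlinarith
    nlinarith
  obtain ⟨r, hr⟩ : ∃ r : ℝ, r = (1 + η / 2) * lam := ⟨_, rfl⟩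
  have hr1 : 1 ≤ r := by rw [hr]; nlinarith
  have hM4 : 4 * K / η ≤ 15 / 32 * (D / w) := by
    have h1 : 16 / η * K ≤ D / w := by rwa [le_div_iff₀ (by linarith)]
    have h2 : 4 * K / η = 1 / 4 * (16 / η * K) := by ring
    have h3 : 0 ≤ 16 / η * K := by positivity
    rw [h2]
    linarith
  have main : ∀ i ≤ I, ∃ M : ℕ, Fam (FP γ ((w0 * lam ^ (I - i) : ℕ) : ℝ)) M 0 n ∧
      15 / 32 * (D / w) * r ^ i ≤ M := by
    intro i
    induction i with
    | zero =>
      intro _
      obtain ⟨k, t, g0, g1, g2, g3, g4, g5⟩ := greedy (fun i => γ (a + i)) (b - a) w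
        (by linarith) (b - a) 0 (Nat.zero_le _) (by omega)
      have h1 := greedy_le (δ := fun i => γ (a + i)) (fun i hi => hstep (a + i) (by omega))
        g0 g1 g2 g3 g5
      simp only [Nat.add_zero, show a + (b - a) = b by omega] at h1
      rw [← hDd] at h1
      refine ⟨k, ?_, ?_⟩
      · have h2 : ((w0 * lam ^ (I - 0) : ℕ) : ℝ) = w := by
          rw [hw, Nat.sub_zero]
          push_cast
          ring
        rw [h2]
        exact ((fam_greedy hab g0 g1 g2 g4).left (Nat.zero_le _)).right hbn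
      · rw [pow_zero, mul_one]
        have hw0' : 0 < w := by linarith
        have h3 : 15 / 16 * D ≤ k * (2 * w) := by
          have h4 : (k : ℝ) * (w + 1) ≤ k * (2 * w) :=
            mul_le_mul_of_nonneg_left (by linarith) (Nat.cast_nonneg _)
          linarith
        calc 15 / 32 * (D / w) = (15 / 16 * D) / (2 * w) := by field_simp; ring
          _ ≤ k := by rwa [div_le_iff₀ (by positivity)]
    | succ i ih =>
      intro hi
      obtain ⟨M, f, hM⟩ := ih (by omega)
      have hWn : 1 ≤ w0 * lam ^ (I - (i + 1)) :=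
        Nat.one_le_iff_ne_zero.2 (Nat.mul_ne_zero (by omega) (pow_ne_zero _ (by omega)))
      have h1 : ((w0 * lam ^ (I - i) : ℕ) : ℝ) = (lam : ℝ) * (w0 * lam ^ (I - (i + 1)) : ℕ) := by
        rw [show I - i = (I - (i + 1)) + 1 by omega, pow_succ]
        push_cast
        ring
      rw [h1] at f
      obtain ⟨M', K', f1, f2, hle⟩ := refine_fam (η := η) hWn f
      refine ⟨M', f1, ?_⟩
      have hK' : K' < K := by
        by_contra hcon
        rw [not_lt] at hcon
        obtain ⟨a', b', q1, q2⟩ := f2.funs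
        refine hDL (I - (i + 1)) (by omega) ⟨a', b', fun j hj => ?_, fun j hj => q2 j (by omega)⟩
        have := q1 j (by omega)
        exact ⟨this.2.1, this.2.2.1, this.2.2.2⟩
      have hK'R : (K' : ℝ) ≤ K := by exact_mod_cast hK'.le
      have h4 : 4 * K / η ≤ (M : ℝ) := by
        refine hM4.trans (le_trans ?_ hM)
        have h5 : 0 ≤ 15 / 32 * (D / w) := by
          have : 0 ≤ 4 * K / η := by positivity
          linarith
        exact le_mul_of_one_le_right h5 (one_le_pow₀ hr1)
      have h6 : (K : ℝ) ≤ M * (η / 4) := by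
        rw [div_le_iff₀ hη] at h4
        linarith
      have hM0 : (0 : ℝ) ≤ M := Nat.cast_nonneg _
      calc 15 / 32 * (D / w) * r ^ (i + 1) = 15 / 32 * (D / w) * r ^ i * r := by
            rw [pow_succ]; ring
        _ ≤ M * r := mul_le_mul_of_nonneg_right hM (by linarith)
        _ ≤ (M - K) * ((1 + η) * lam) := by
            have h7 : (M : ℝ) * (1 - η / 4) ≤ M - K := by linarith
            have h8 : M * r = (M * (1 + η / 2)) * lam := by rw [hr]; ring
            have h9 : (M - K : ℝ) * ((1 + η) * lam) = ((M - K) * (1 + η)) * lam := by ring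
            rw [h8, h9]
            refine mul_le_mul_of_nonneg_right ?_ (by linarith)
            calc (M : ℝ) * (1 + η / 2) ≤ M * ((1 - η / 4) * (1 + η)) := by
                  refine mul_le_mul_of_nonneg_left ?_ hM0
                  nlinarith
              _ = (M * (1 - η / 4)) * (1 + η) := by ring
              _ ≤ (M - K) * (1 + η) := mul_le_mul_of_nonneg_right h7 (by linarith)
        _ ≤ (M - K') * ((1 + η) * lam) := by
            refine mul_le_mul_of_nonneg_right (by linarith) (by positivity)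
        _ ≤ M' := hle
  obtain ⟨M, f, hM⟩ := main I le_rfl
  have hne : ∀ x y, FP γ ((w0 * lam ^ (I - I) : ℕ) : ℝ) x y → x ≠ y := by
    intro x y hxy hcon
    unfold FP at hxy
    rw [hcon, dst_self, Nat.sub_self, pow_zero, Nat.mul_one] at hxy
    linarith
  have h1 := f.card_le hne
  have h2 : (M : ℝ) ≤ n := by exact_mod_cast h1
  have h3 : 15 / 32 * (D / w) * r ^ I ≤ n := hM.trans h2
  have hw0' : (0 : ℝ) < w0 := by linarith
  have h4 : 15 / 32 * (D / w) * r ^ I = 15 / 32 * (D * (1 + η / 2) ^ I) / w0 := by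
    rw [hr, hw, mul_pow]
    have : (lam : ℝ) ^ I ≠ 0 := by positivity
    field_simp
  rw [h4, div_le_iff₀ hw0'] at h3
  have hn0 : (0 : ℝ) ≤ n := Nat.cast_nonneg _
  have h5 : (0 : ℝ) ≤ n * w0 := by positivity
  linarith

end Pool.Agent.Y858.QB
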